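import Pool.Agent.X54.Osc

namespace Pool.Agent.Results.MP_9e0f03_co.Between

open Pool.Agent.X54.Osc

/-- There is a sum closed permutation class whose indecomposables have upper growth rate strictly
between `1` and the golden ratio. -/
theorem result : ∃ C : ∀ n, Set (Equiv.Perm (Fin n)), IsClass C ∧ SumClosed C ∧
    1 < upperGr (ind C) ∧ upperGr (ind C) < ENNReal.ofReal ((1 + Real.sqrt 5) / 2) := by
  refine ⟨C, isClass_C, sumClosed_C, lower_ind, lt_of_le_of_lt upper_ind_le ?_⟩
  have h1 : ((8 : ℕ) : ENNReal) / ((5 : ℕ) : ENNReal) = ENNReal.ofReal (8 / 5) := by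
    rw [ENNReal.ofReal_div_of_pos (by norm_num)]
    norm_num
  rw [h1, ENNReal.ofReal_lt_ofReal_iff (by positivity)]
  have h2 : (2.2 : ℝ) < Real.sqrt 5 := by
    rw [Real.lt_sqrt (by norm_num)]
    norm_num
  linarith

end Pool.Agent.Results.MP_9e0f03_co.Between
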